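import Pool.Agent.Q214.MP2489.Expo

set_option autoImplicit false

open MeasureTheory Filter Topology

namespace Pool.Agent.Results.MP_2489e7_pr.TwoPhaseTransitions

/-- `GL(2, ℝ)` with its Borel sigma-algebra. -/
abbrev G : Type := Matrix.GeneralLinearGroup (Fin 2) ℝ

instance : MeasurableSpace G := borel G

instance : BorelSpace G := ⟨rfl⟩

/-- The operator norm `|g|` for the Euclidean norm on `ℝ²`. -/
noncomputable def nrm (g : G) : ℝ :=
  ‖Matrix.toEuclideanCLM (𝕜 := ℝ) (g : Matrix (Fin 2) (Fin 2) ℝ)‖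

/-- `μ` is compactly supported on `GL(2, ℝ)`. -/
def CompactlySupported (μ : Measure G) : Prop := ∃ K : Set G, IsCompact K ∧ μ Kᶜ = 0

/-- `S_μ`: the closed semigroup generated by the support of `μ`. -/
def semigroup (μ : Measure G) : Set G := closure (Subsemigroup.closure μ.support : Set G)

/-- No finite union of proper nonzero subspaces of `ℝ²` is invariant under all `g ∈ S_μ`. -/
def StronglyIrreducible (μ : Measure G) : Prop :=
  ¬ ∃ 𝒱 : Finset (Submodule ℝ (Fin 2 → ℝ)), 𝒱.Nonempty ∧ (∀ V ∈ 𝒱, V ≠ ⊥ ∧ V ≠ ⊤) ∧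
    ∀ g ∈ semigroup μ, ∀ v : Fin 2 → ℝ, (∃ V ∈ 𝒱, v ∈ V) →
      ∃ V ∈ 𝒱, (g : Matrix (Fin 2) (Fin 2) ℝ).mulVec v ∈ V

/-- Some `g ∈ S_μ` has a simple eigenvalue of strictly largest modulus. -/
def Proximal (μ : Measure G) : Prop :=
  ∃ g ∈ semigroup μ, ∃ z : ℂ,
    ((g : Matrix (Fin 2) (Fin 2) ℝ).map Complex.ofReal).charpoly.rootMultiplicity z = 1 ∧
    ∀ w : ℂ, ((g : Matrix (Fin 2) (Fin 2) ℝ).map Complex.ofReal).charpoly.IsRoot w → w ≠ z →
      ‖w‖ < ‖z‖

/-- `∫ |g|^t dμ^n(g)`, where `μ^n` is the law of a product of `n` independent `μ`-distributed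
matrices. -/
noncomputable def moment (μ : Measure G) (t : ℝ) (n : ℕ) : ℝ :=
  ∫ g : Fin n → G, nrm (List.ofFn g).prod ^ t ∂(Measure.pi fun _ => μ)

open Pool.Agent.Q214.MP2489

/-- The parameter. -/
noncomputable def lam0 : ℝ := 4 * 10 ^ 100

theorem lam0_pos : 0 < lam0 := by unfold lam0; positivity

/-- The four elements of the support. -/
noncomputable def gl (x : L) : G :=
  ⟨mat lam0 x, mat lam0 (inv x), mat_mul_inv lam0 lam0_pos x, by
    have := mat_mul_inv lam0 lam0_pos (inv x)
    rwa [inv_inv] at this⟩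

/-- The uniform measure on the letters. -/
noncomputable def nu : Measure L := (4 : ENNReal)⁻¹ • Measure.count

/-- The counterexample. -/
noncomputable def mu : Measure G := nu.map gl

theorem nu_singleton (x : L) : nu {x} = (4 : ENNReal)⁻¹ := by
  unfold nu
  rw [Measure.smul_apply, Measure.count_singleton, smul_eq_mul, mul_one]

instance : IsProbabilityMeasure nu := by
  refine ⟨?_⟩
  unfold nu
  rw [Measure.smul_apply, Measure.count_univ, smul_eq_mul]
  simp
  rw [ENNReal.inv_mul_cancel] <;> norm_num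

theorem gl_measurable : Measurable gl := measurable_of_countable _

instance : IsProbabilityMeasure mu := by
  unfold mu
  exact Measure.isProbabilityMeasure_map gl_measurable.aemeasurable

theorem mat_inj : Function.Injective (mat lam0) := by
  intro x y h
  have hl : (4 : ℝ) ≤ lam0 := big lam0 le_rfl
  have h00 := congrFun (congrFun h 0) 0
  have h01 := congrFun (congrFun h 0) 1
  have hi : lam0⁻¹ < 1 := inv_lt_one_of_one_lt₀ (by linarith)
  rcases x with ⟨a, b⟩
  rcases y with ⟨a', b'⟩
  cases a <;> cases b <;> cases a' <;> cases b' <;> simp [mat] at h00 h01 ⊢ <;> linarith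

theorem gl_inj : Function.Injective gl := fun x y h => mat_inj (congrArg Units.val h)

theorem emb (n : ℕ) : MeasurableEmbedding (fun (w : Fin n → L) (i : Fin n) => gl (w i)) where
  injective := fun w w' h => funext fun i => gl_inj (congrFun h i)
  measurable := measurable_of_countable _
  measurableSet_image' := fun s _ => (s.toFinite.image _).measurableSet

theorem coe_prod (w : List L) : (((w.map gl).prod : G) : Matrix (Fin 2) (Fin 2) ℝ) = Mx lam0 w := by
  induction w with
  | nil => simp
  | cons x w ih =>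
    rw [List.map_cons, List.prod_cons, Mx_cons, Units.val_mul, ih]
    rfl

theorem moment_eq (t : ℝ) (n : ℕ) : moment mu t n = EE lam0 t n := by
  unfold moment mu
  have h1 : (Measure.pi fun _ : Fin n => nu.map gl) =
      (Measure.pi fun _ : Fin n => nu).map (fun (w : Fin n → L) (i : Fin n) => gl (w i)) := by
    have : SigmaFinite (nu.map gl) := by
      have := (Measure.isProbabilityMeasure_map (μ := nu) gl_measurable.aemeasurable)
      infer_instance
    rw [Measure.pi_map_pi (fun _ => gl_measurable.aemeasurable)]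
  rw [h1, (emb n).integral_map, integral_fintype (Integrable.of_finite)]
  unfold EE
  rw [Finset.mul_sum]
  refine Finset.sum_congr rfl fun w _ => ?_
  have h2 : (Measure.pi fun _ : Fin n => nu).real {w} = ((4 : ℝ) ^ n)⁻¹ := by
    rw [Measure.real, Measure.pi_singleton]
    simp only [nu_singleton, Finset.prod_const, Finset.card_univ, Fintype.card_fin]
    rw [ENNReal.toReal_pow, ENNReal.toReal_inv, inv_pow]
    norm_num
  rw [h2, smul_eq_mul]
  congr 2
  unfold nrm opn
  have h3 : List.ofFn (fun i => gl (w i)) = (List.ofFn w).map gl := by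
    rw [List.map_ofFn]; rfl
  rw [h3, coe_prod]

theorem mem_support (x : L) : gl x ∈ mu.support := by
  rw [Measure.mem_support_iff_forall]
  intro U hU
  unfold mu
  have h1 : nu.map gl {gl x} ≤ nu.map gl U := measure_mono (by
    simpa using mem_of_mem_nhds hU)
  refine lt_of_lt_of_le ?_ h1
  rw [Measure.map_apply gl_measurable (measurableSet_singleton _)]
  refine lt_of_lt_of_le ?_ (measure_mono (s := {x}) (by simp))
  rw [nu_singleton]
  simp

theorem mem_semigroup (x : L) : gl x ∈ semigroup mu :=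
  subset_closure (Subsemigroup.subset_closure (mem_support x))

theorem compact : CompactlySupported mu := by
  refine ⟨Set.range gl, (Set.finite_range gl).isCompact, ?_⟩
  unfold mu
  rw [Measure.map_apply gl_measurable (Set.finite_range gl).measurableSet.compl]
  have : gl ⁻¹' (Set.range gl)ᶜ = ∅ := by ext x; simp
  rw [this, measure_empty]

theorem cross_zero (W : Submodule ℝ (Fin 2 → ℝ)) (hW : W ≠ ⊤) (p q : Fin 2 → ℝ) (hp : p ∈ W)
    (hq : q ∈ W) : p 0 * q 1 - p 1 * q 0 = 0 := by
  by_contra h
  apply hW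
  rw [Submodule.eq_top_iff']
  intro u
  have e : u = ((u 0 * q 1 - u 1 * q 0) / (p 0 * q 1 - p 1 * q 0)) • p +
      ((p 0 * u 1 - p 1 * u 0) / (p 0 * q 1 - p 1 * q 0)) • q := by
    funext i
    fin_cases i
    · simp only [Pi.add_apply, Pi.smul_apply, smul_eq_mul, Fin.zero_eta]
      rw [div_mul_eq_mul_div, div_mul_eq_mul_div, ← add_div, eq_div_iff h]
      ring
    · simp only [Pi.add_apply, Pi.smul_apply, smul_eq_mul, Fin.mk_one]
      rw [div_mul_eq_mul_div, div_mul_eq_mul_div, ← add_div, eq_div_iff h]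
      ring
  rw [e]
  exact W.add_mem (W.smul_mem _ hp) (W.smul_mem _ hq)

theorem att_cross (x : L) (p q : Fin 2 → ℝ) (h : p 0 * q 1 - p 1 * q 0 = 0) :
    att x p * att (inv x) q - att (inv x) p * att x q = 0 := by
  rcases x with ⟨a, b⟩
  cases a <;> cases b <;> simp only [att, inv, Bool.not_true, Bool.not_false] <;> linarith

theorem att_iter (x : L) (n : ℕ) (v : Fin 2 → ℝ) :
    att x (((mat lam0 x).mulVec)^[n] v) = P lam0 x ^ n * att x v ∧
    att (inv x) (((mat lam0 x).mulVec)^[n] v) = p lam0 x ^ n * att (inv x) v := by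
  induction n with
  | zero => simp
  | succ n ih =>
    rw [Function.iterate_succ_apply', att_mat lam0 lam0_pos, att_inv_mat lam0 lam0_pos, ih.1, ih.2,
      pow_succ', pow_succ']
    constructor <;> ring

theorem irr : StronglyIrreducible mu := by
  rintro ⟨𝒱, ⟨V, hV⟩, hproper, hinv⟩
  obtain ⟨v, hvV, hv0⟩ := Submodule.exists_mem_ne_zero_of_ne_bot (hproper V hV).1
  have key : ∀ x : L, att x v * att (inv x) v = 0 := by
    intro x
    have hmem : ∀ n : ℕ, ∃ W ∈ 𝒱, ((mat lam0 x).mulVec)^[n] v ∈ W := by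
      intro n
      induction n with
      | zero => exact ⟨V, hV, hvV⟩
      | succ n ih =>
        rw [Function.iterate_succ_apply']
        exact hinv (gl x) (mem_semigroup x) _ ih
    choose f hf hfm using hmem
    obtain ⟨n, m, hnm, hff⟩ := Finite.exists_ne_map_eq_of_infinite
      (fun n : ℕ => (⟨f n, hf n⟩ : 𝒱))
    have hff' : f n = f m := congrArg Subtype.val hff
    have h1 := hfm n
    have h2 := hfm m
    rw [← hff'] at h2
    have h3 := att_cross x _ _ (cross_zero (f n) (hproper _ (hf n)).2 _ _ h1 h2)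
    rw [(att_iter x n v).1, (att_iter x n v).2, (att_iter x m v).1, (att_iter x m v).2] at h3
    have h4 : (P lam0 x ^ n * p lam0 x ^ m - p lam0 x ^ n * P lam0 x ^ m) *
        (att x v * att (inv x) v) = 0 := by
      rw [← h3]; ring
    rcases mul_eq_zero.1 h4 with h5 | h5
    · exfalso
      obtain ⟨hp0, hpP⟩ := p_lt lam0 (big lam0 le_rfl) x
      have hP0 : 0 < P lam0 x := by linarith
      have hr : 1 < P lam0 x / p lam0 x := (one_lt_div hp0).2 (by linarith)
      have h6 : (P lam0 x / p lam0 x) ^ n = (P lam0 x / p lam0 x) ^ m := by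
        rw [div_pow, div_pow, div_eq_div_iff (by positivity) (by positivity)]
        linarith
      exact hnm (pow_right_injective₀ (by positivity) hr.ne' h6)
    · exact h5
  have h1 := key (false, true)
  have h2 := key (true, true)
  simp only [att, inv, Bool.not_true] at h1 h2
  apply hv0
  have h3 : v 0 ^ 2 = v 1 ^ 2 := by linarith
  funext i
  rcases mul_eq_zero.1 h1 with h | h
  · have : v 1 = 0 := by
      rw [h] at h3
      have : v 1 ^ 2 = 0 := by rw [← h3]; ring
      exact pow_eq_zero_iff (two_ne_zero) |>.1 this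
    fin_cases i
    · exact h
    · exact this
  · have : v 0 = 0 := by
      rw [h] at h3
      have : v 0 ^ 2 = 0 := by rw [h3]; ring
      exact pow_eq_zero_iff (two_ne_zero) |>.1 this
    fin_cases i
    · exact this
    · exact h

theorem prox : Proximal mu := by
  refine ⟨gl (false, true), mem_semigroup _, (2 / 5 : ℂ), ?_⟩
  have hval : ((gl (false, true) : G) : Matrix (Fin 2) (Fin 2) ℝ) =
      !![2 / 5, 0; 0, 2 / 5 / lam0 ^ 2] := rfl
  have hc : (((gl (false, true) : G) : Matrix (Fin 2) (Fin 2) ℝ).map Complex.ofReal).charpoly =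
      (Polynomial.X - Polynomial.C (2 / 5 : ℂ)) *
        (Polynomial.X - Polynomial.C ((2 / 5 / lam0 ^ 2 : ℝ) : ℂ)) := by
    rw [hval, Matrix.charpoly_fin_two, Matrix.trace_fin_two, Matrix.det_fin_two]
    simp
    ring
  have hl : (4 : ℝ) ≤ lam0 := big lam0 le_rfl
  have hlt : (2 / 5 / lam0 ^ 2 : ℝ) < 2 / 5 := by
    rw [div_lt_iff₀ (by positivity)]
    nlinarith
  have hpos : (0 : ℝ) < 2 / 5 / lam0 ^ 2 := by positivity
  have hne : (2 / 5 : ℂ) ≠ ((2 / 5 / lam0 ^ 2 : ℝ) : ℂ) := by
    intro h
    have : ((2 / 5 : ℝ) : ℂ) = ((2 / 5 / lam0 ^ 2 : ℝ) : ℂ) := by rw [← h]; norm_num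
    have := Complex.ofReal_injective this
    linarith
  rw [hc]
  refine ⟨?_, ?_⟩
  · rw [Polynomial.rootMultiplicity_mul, Polynomial.rootMultiplicity_X_sub_C_self,
      Polynomial.rootMultiplicity_X_sub_C, if_neg hne]
    exact mul_ne_zero (Polynomial.X_sub_C_ne_zero _) (Polynomial.X_sub_C_ne_zero _)
  · intro w hw hwz
    rw [Polynomial.IsRoot, Polynomial.eval_mul, mul_eq_zero] at hw
    simp only [Polynomial.eval_sub, Polynomial.eval_X, Polynomial.eval_C] at hw
    rcases hw with h | h
    · exact absurd (sub_eq_zero.1 h) hwz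
    · rw [sub_eq_zero.1 h, Complex.norm_real, Real.norm_of_nonneg hpos.le]
      have : ‖(2 / 5 : ℂ)‖ = 2 / 5 := by
        rw [show (2 / 5 : ℂ) = ((2 / 5 : ℝ) : ℂ) by norm_num, Complex.norm_real]
        norm_num
      rw [this]
      exact hlt

/-- For `d = 2` there is a compactly supported, strongly irreducible and proximal probability
measure `μ` on `GL(2, ℝ)` (for `d = 2` this is full strong irreducibility and full proximality) for
which the limit `k(t)` exists for all real `t`, and `k` is not real-analytic on the complement of any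
set with at most `d - 1 = 1` elements. -/
theorem result : ∃ μ : Measure G, IsProbabilityMeasure μ ∧ CompactlySupported μ ∧
    StronglyIrreducible μ ∧ Proximal μ ∧
    ∃ k : ℝ → ℝ,
      (∀ t : ℝ, Tendsto (fun n : ℕ => 1 / (n : ℝ) * Real.log (moment μ t n)) atTop (𝓝 (k t))) ∧
      ∀ F : Set ℝ, F.encard ≤ 1 → ¬ ∀ t ∉ F, AnalyticAt ℝ k t := by
  refine ⟨mu, inferInstance, compact, irr, prox, ?_⟩
  choose k hk using exists_lim lam0 le_rfl
  refine ⟨k, fun t => ?_, fun F hF => ?_⟩
  · simp only [moment_eq]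
    exact hk t
  · exact not_analytic lam0 le_rfl k hk F
      (fun a ha b hb => Set.encard_le_one_iff.1 hF a b ha hb)

end Pool.Agent.Results.MP_2489e7_pr.TwoPhaseTransitions
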